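import Pool.Agent.R858.FO.Val

/-!
The function with the divisor of two finite orbits is constant.
-/

set_option autoImplicit false

open Polynomial

namespace Pool.Agent.R858.FO

universe u

variable {K : Type u} [Field K] {L : Type u} [Field L] [Algebra K L]

/-- a function in all valuation rings is constant -/
theorem const_of_forall [IsAlgClosed K] {u : L}
    (h : ∀ V : ValuationSubring L, Cst K V → u ∈ V) : ∃ c : K, algebraMap K L c = u := by
  by_contra hcon
  have hu0 : u ≠ 0 := by
    rintro rfl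
    exact hcon ⟨0, map_zero _⟩
  have htr : Transcendental K u := by
    intro halg
    have hint : IsIntegral K u := halg.isIntegral
    have hdeg := IsAlgClosed.degree_eq_one_of_irreducible K (minpoly.irreducible hint)
    obtain ⟨c, hc⟩ := minpoly.mem_range_of_degree_eq_one K u hdeg
    exact hcon ⟨c, hc⟩
  have htr' : Transcendental K u⁻¹ := by
    intro halg
    exact htr (by simpa using halg.inv)
  obtain ⟨A, hA⟩ : ∃ A : Subring L, A = (aeval u⁻¹ : K[X] →ₐ[K] L).toRingHom.range := ⟨_, rfl⟩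
  have ht : u⁻¹ ∈ A := by rw [hA]; exact ⟨X, by simp⟩
  have hI : Ideal.span {(⟨u⁻¹, ht⟩ : A)} ≠ ⊤ := by
    intro htop
    rw [Ideal.eq_top_iff_one, Ideal.mem_span_singleton'] at htop
    obtain ⟨⟨w, hw⟩, hq⟩ := htop
    have h1 : w * u⁻¹ = 1 := congrArg Subtype.val hq
    rw [hA] at hw
    obtain ⟨q, hq'⟩ := hw
    have hq'' : aeval u⁻¹ q = w := hq'
    have h2 : aeval u⁻¹ (q * X - 1) = 0 := by
      rw [map_sub, map_mul, aeval_X, map_one, hq'', h1, sub_self]
    have h3 : q * X - 1 = 0 := (transcendental_iff.1 htr') _ h2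
    have h4 := congrArg (eval 0) h3
    simp at h4
  obtain ⟨B, hAB, hI'⟩ := Ideal.image_subset_nonunits_valuationSubring _ hI
  have h1 : u⁻¹ ∈ B.nonunits := hI' ⟨⟨u⁻¹, ht⟩, Ideal.subset_span rfl, rfl⟩
  have h2 : u ∈ B := h B fun c => hAB (by rw [hA]; exact ⟨C c, by simp⟩)
  rw [ValuationSubring.mem_nonunits_iff] at h1
  rw [← ValuationSubring.valuation_le_one_iff] at h2
  have h3 : B.valuation u⁻¹ * B.valuation u = 1 := by
    rw [← map_mul, inv_mul_cancel₀ hu0, map_one]
  have h4 := mul_lt_one_of_lt_of_le h1 h2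
  rw [h3] at h4
  exact lt_irrefl _ h4

theorem ev_eq (x y : L) (q : K[X][X]) : ev x y q = aevalAeval x y q := by
  induction q using Polynomial.induction_on' with
  | add p q hp hq => rw [map_add, map_add, hp, hq]
  | monomial n a =>
    rw [← C_mul_X_pow_eq_monomial, map_mul, map_mul, map_pow, map_pow, ev_C, ev_X,
      aevalAeval_C, aevalAeval_Y]

theorem ev_swap (x y : L) (q : K[X][X]) : ev x y (Bivariate.swap q) = ev y x q := by
  rw [ev_eq, ev_eq, Bivariate.aevalAeval_swap]

theorem evalEval_swap (a b : K) (q : K[X][X]) :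
    (Bivariate.swap q).evalEval a b = q.evalEval b a := by
  rw [← coe_aevalAeval_eq_evalEval, ← coe_aevalAeval_eq_evalEval, Bivariate.aevalAeval_swap]

theorem eval_C_eq [Infinite K] (p : K[X][X]) (b : K) :
    p.eval (C b) = (Bivariate.swap p).map (evalRingHom b) := by
  refine Polynomial.funext fun a => ?_
  rw [map_evalRingHom_eval, evalEval_swap]

theorem deriv_swap [Infinite K] (p : K[X][X]) (a b : K) :
    (derivative (p.eval (C b))).eval a = (derivative (Bivariate.swap p)).evalEval b a := by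
  rw [eval_C_eq, derivative_map, map_evalRingHom_eval]

/-- `L` is the function field of the curve `p = 0`, with the coordinate functions `x`, `y` -/
structure FF (p : K[X][X]) (x y : L) : Prop where
  ker : ∀ q : K[X][X], ev x y q = 0 → p ∣ q
  zero : ev x y p = 0
  gen : ∀ w : L, ∃ q r : K[X][X], ev x y r ≠ 0 ∧ w = ev x y q / ev x y r

theorem FF.swap {p : K[X][X]} {x y : L} (h : FF p x y) : FF (Bivariate.swap p) y x where
  ker q hq := by
    have h1 := h.ker (Bivariate.swap q) (by rw [ev_swap, hq])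
    have h2 := map_dvd (Bivariate.swap : K[X][X] ≃ₐ[K] K[X][X]) h1
    rwa [Bivariate.swap_swap_apply] at h2
  zero := by rw [ev_swap, h.zero]
  gen w := by
    obtain ⟨q, r, hr, hw⟩ := h.gen w
    refine ⟨Bivariate.swap q, Bivariate.swap r, ?_, ?_⟩
    · rwa [ev_swap]
    · rw [ev_swap, ev_swap, hw]

variable {V : ValuationSubring L}

theorem v_aeval_unit [IsAlgClosed K] (hV : Cst K V) {z : L}
    (hz : ∀ a : K, V.valuation (z - algebraMap K L a) = 1) :
    ∀ (n : ℕ) (q : K[X]), q.natDegree = n → q ≠ 0 → V.valuation (aeval z q) = 1 := by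
  intro n
  induction n with
  | zero =>
    intro q hq hq0
    rw [natDegree_eq_zero] at hq
    obtain ⟨c, rfl⟩ := hq
    rw [aeval_C]
    exact v_cst hV fun hc => hq0 (by rw [hc, map_zero])
  | succ n ih =>
    intro q hq hq0
    obtain ⟨a, ha⟩ := IsAlgClosed.exists_root q (by
      rw [degree_eq_natDegree hq0, hq]
      exact_mod_cast Nat.succ_ne_zero n)
    obtain ⟨r, rfl⟩ := dvd_iff_isRoot.2 ha
    have hr0 : r ≠ 0 := right_ne_zero_of_mul hq0
    rw [natDegree_mul (X_sub_C_ne_zero a) hr0, natDegree_X_sub_C] at hq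
    rw [map_mul, map_sub, aeval_X, aeval_C, map_mul, hz, one_mul]
    exact ih r (by omega) hr0

/-- the centre of a place -/
theorem FF.center [IsAlgClosed K] {p : K[X][X]} (hp : Irreducible p) (hd : 0 < p.natDegree)
    {x y : L} (h : FF p x y) (hV : Cst K V) (hne : V ≠ ⊤) (hx : V.valuation x ≤ 1) :
    ∃ a : K, V.valuation (x - algebraMap K L a) < 1 := by
  by_contra hcon
  push Not at hcon
  have hz : ∀ a : K, V.valuation (x - algebraMap K L a) = 1 := fun a =>
    le_antisymm ((V.valuation.map_sub _ _).trans (max_le hx (v_cst_le hV a))) (hcon a)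
  have hy : V.valuation y ≤ 1 :=
    root_le hV hx (v_aeval_unit hV hz _ _ rfl (leadingCoeff_ne_zero.2 hp.ne_zero)) h.zero
  apply hne
  rw [eq_top_iff]
  intro w _
  obtain ⟨q, r, hr, rfl⟩ := h.gen w
  have hr' : ¬ p ∣ r := by
    rintro ⟨s, rfl⟩
    exact hr (by rw [map_mul, h.zero, zero_mul])
  obtain ⟨u, v', d, hd0, hb⟩ := bezout hp hd hr'
  have h1 := congrArg (ev x y) hb
  rw [map_add, map_mul, map_mul, h.zero, mul_zero, zero_add, ev_C] at h1
  have h2 : V.valuation (ev x y v') * V.valuation (ev x y r) = 1 := by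
    rw [← map_mul, h1]
    exact v_aeval_unit hV hz _ _ rfl hd0
  have h3 : V.valuation (ev x y r) = 1 := by
    refine le_antisymm (v_ev_le hV hx hy r) ?_
    calc (1 : V.ValueGroup) = V.valuation (ev x y v') * V.valuation (ev x y r) := h2.symm
      _ ≤ 1 * V.valuation (ev x y r) := mul_le_mul_left (v_ev_le hV hx hy v') _
      _ = V.valuation (ev x y r) := one_mul _
  rw [← V.valuation_le_one_iff, map_div₀, h3, div_one]
  exact v_ev_le hV hx hy q

/-- the rows over `A` are not degenerate, and their points are over `B` -/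
structure Row (p : K[X][X]) (A B : Finset K) : Prop where
  lc : ∀ a ∈ A, p.leadingCoeff.eval a ≠ 0
  mem : ∀ a ∈ A, ∀ b, p.evalEval a b = 0 → b ∈ B
  der : ∀ a ∈ A, ∀ b, p.evalEval a b = 0 → (derivative p).evalEval a b ≠ 0

/-- a finite union of nondegenerate orbits -/
structure Good (p : K[X][X]) (A B : Finset K) : Prop where
  row : Row p A B
  col : Row (Bivariate.swap p) B A

theorem Good.swap {p : K[X][X]} {A B : Finset K} (h : Good p A B) :
    Good (Bivariate.swap p) B A :=
  ⟨h.col, by rw [Bivariate.swap_swap_apply]; exact h.row⟩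

/-- places over the points of a good orbit -/
theorem near_pair [IsAlgClosed K] {p : K[X][X]} (hp' : Irreducible (Bivariate.swap p))
    (hd' : 0 < (Bivariate.swap p).natDegree) {x y : L} (h : FF p x y) (hV : Cst K V)
    (hne : V ≠ ⊤) {A B : Finset K} (hG : Good p A B) {a : K} (ha : a ∈ A)
    (hx : V.valuation (x - algebraMap K L a) < 1) :
    ∃ b ∈ B, V.valuation (y - algebraMap K L b) = V.valuation (x - algebraMap K L a) ∧
      p.evalEval a b = 0 := by
  have hK : Infinite K := IsAlgClosed.instInfinite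
  have hlc : V.valuation (aeval x p.leadingCoeff) = 1 :=
    v_unit_of_cong hV (hG.row.lc a ha) (cong1 hV hx _)
  have hy := root_le hV (v_le_of_near hV hx) hlc h.zero
  obtain ⟨b, hb⟩ := h.swap.center hp' hd' hV hne hy
  have hab : p.evalEval a b = 0 := by
    have h1 := cong2 hV hx hb p
    rw [h.zero, zero_sub, Valuation.map_neg] at h1
    exact cst_eq_zero hV h1
  have hbB := hG.row.mem a ha b hab
  refine ⟨b, hbB, ?_, hab⟩
  obtain ⟨q1, hq1⟩ := X_sub_C_dvd_sub_C_eval (a := C b) (p := p)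
  obtain ⟨r, hr⟩ := X_sub_C_dvd_sub_C_eval (a := a) (p := p.eval (C b))
  have h1 := congrArg (ev x y) hq1
  rw [map_sub, map_mul, map_sub, ev_X, ev_C, ev_C, aeval_C, h.zero] at h1
  have h2 := congrArg (aeval x) hr
  have hab' : (p.eval (C b)).eval a = 0 := hab
  rw [map_sub, map_mul, map_sub, aeval_X, aeval_C, aeval_C, hab', map_zero, sub_zero] at h2
  have h3 : (x - algebraMap K L a) * aeval x r = -((y - algebraMap K L b) * ev x y q1) := by
    rw [← h1, ← h2]; ring
  have hr1 : V.valuation (aeval x r) = 1 := by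
    have e1 : r.eval a = (derivative (p.eval (C b))).eval a := by
      have h4 := congrArg (fun s => (derivative s).eval a) hr
      simp only [derivative_sub, derivative_C, sub_zero, derivative_mul, derivative_X, one_mul,
        eval_add, eval_mul, eval_sub, eval_X, eval_C, sub_self, zero_mul, add_zero] at h4
      exact h4.symm
    refine v_unit_of_cong hV ?_ (cong1 hV hx r)
    rw [e1, deriv_swap]
    exact hG.col.der b hbB a (by rw [evalEval_swap]; exact hab)
  have hq11 : V.valuation (ev x y q1) = 1 := by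
    have e1 : q1.evalEval a b = (derivative p).evalEval a b := by
      have h4 := congrArg (fun s => (derivative s).evalEval a b) hq1
      simp only [derivative_sub, derivative_C, sub_zero, derivative_mul, derivative_X, one_mul,
        evalEval_add, evalEval_mul, evalEval_sub, evalEval_X, evalEval_C, eval_C, sub_self,
        zero_mul, add_zero] at h4
      exact h4.symm
    refine v_unit_of_cong hV ?_ (cong2 hV hx hb q1)
    rw [e1]
    exact hG.row.der a ha b hab
  have h4 := congrArg V.valuation h3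
  rw [Valuation.map_neg, map_mul, map_mul, hr1, hq11, mul_one, mul_one] at h4
  exact h4.symm

/-- **The balance of two good orbits at every place.** -/
theorem balance_all [IsAlgClosed K] {p : K[X][X]} (hp : Irreducible p) (hd : 0 < p.natDegree)
    (hp' : Irreducible (Bivariate.swap p)) (hd' : 0 < (Bivariate.swap p).natDegree)
    {x y : L} (h : FF p x y) (hV : Cst K V) (hne : V ≠ ⊤) {A₁ A₂ B₁ B₂ : Finset K}
    (hG₁ : Good p A₁ B₁) (hG₂ : Good p A₂ B₂) (hA : Disjoint A₁ A₂) (hB : Disjoint B₁ B₂)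
    {s₁ s₂ : ℕ} (hcA : A₁.card * s₂ = A₂.card * s₁) (hcB : B₁.card * s₂ = B₂.card * s₁) :
    V.valuation (aeval x (PA A₁)) ^ s₂ * V.valuation (aeval y (PA B₂)) ^ s₁ =
      V.valuation (aeval x (PA A₂)) ^ s₁ * V.valuation (aeval y (PA B₁)) ^ s₂ := by
  by_cases h1 : ∃ a ∈ A₁, V.valuation (x - algebraMap K L a) < 1
  · obtain ⟨a, ha, hxa⟩ := h1
    obtain ⟨b, hb, hyb, -⟩ := near_pair hp' hd' h hV hne hG₁ ha hxa
    have hyb' : V.valuation (y - algebraMap K L b) < 1 := hyb ▸ hxa
    rw [v_PA_near hV hxa ha, v_PA_near hV hyb' hb, v_PA_away hV hxa (Finset.disjoint_left.1 hA ha),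
      v_PA_away hV hyb' (Finset.disjoint_left.1 hB hb), hyb, one_pow, mul_one, one_mul]
  by_cases h2 : ∃ a ∈ A₂, V.valuation (x - algebraMap K L a) < 1
  · obtain ⟨a, ha, hxa⟩ := h2
    obtain ⟨b, hb, hyb, -⟩ := near_pair hp' hd' h hV hne hG₂ ha hxa
    have hyb' : V.valuation (y - algebraMap K L b) < 1 := hyb ▸ hxa
    rw [v_PA_near hV hxa ha, v_PA_near hV hyb' hb, v_PA_away hV hxa (Finset.disjoint_right.1 hA ha),
      v_PA_away hV hyb' (Finset.disjoint_right.1 hB hb), hyb, one_pow, mul_one, one_mul]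
  have key : ∀ A B : Finset K, Good p A B → (¬ ∃ a ∈ A, V.valuation (x - algebraMap K L a) < 1) →
      ∀ b ∈ B, ¬ V.valuation (y - algebraMap K L b) < 1 := by
    intro A B hG hA' b hb hyb
    obtain ⟨a, ha, hxa, -⟩ := near_pair (by rw [Bivariate.swap_swap_apply]; exact hp)
      (by rw [Bivariate.swap_swap_apply]; exact hd) h.swap hV hne hG.swap hb hyb
    exact hA' ⟨a, ha, hxa ▸ hyb⟩
  have k1 := key _ _ hG₁ h1
  have k2 := key _ _ hG₂ h2
  push Not at h1 h2
  rw [balance hV (fun a ha => not_lt.2 (h1 a ha)) (fun a ha => not_lt.2 (h2 a ha)) hcA,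
    balance hV k1 k2 hcB]

/-- **The function defined by two good orbits is constant.** -/
theorem two_orbits [IsAlgClosed K] {p : K[X][X]} (hp : Irreducible p) (hd : 0 < p.natDegree)
    (hp' : Irreducible (Bivariate.swap p)) (hd' : 0 < (Bivariate.swap p).natDegree)
    {x y : L} (h : FF p x y) {A₁ A₂ B₁ B₂ : Finset K}
    (hG₁ : Good p A₁ B₁) (hG₂ : Good p A₂ B₂) (hA : Disjoint A₁ A₂) (hB : Disjoint B₁ B₂)
    {s₁ s₂ : ℕ} (hcA : A₁.card * s₂ = A₂.card * s₁) (hcB : B₁.card * s₂ = B₂.card * s₁) :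
    ∃ c : K, p ∣ C (PA A₁) ^ s₂ * (PA B₂).map C ^ s₁ -
      C (C c) * (C (PA A₂) ^ s₁ * (PA B₁).map C ^ s₂) := by
  have hx0 : ∀ q : K[X], q ≠ 0 → aeval x q ≠ 0 := by
    intro q hq h0
    have h1 := h.ker (C q) (by rw [ev_C, h0])
    have h2 := natDegree_le_of_dvd h1 (by rwa [Ne, C_eq_zero])
    rw [natDegree_C] at h2
    omega
  have hy0 : ∀ q : K[X], q ≠ 0 → aeval y q ≠ 0 := by
    intro q hq h0
    have h1 := h.swap.ker (C q) (by rw [ev_C, h0])
    have h2 := natDegree_le_of_dvd h1 (by rwa [Ne, C_eq_zero])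
    rw [natDegree_C] at h2
    omega
  have hden : aeval x (PA A₂) ^ s₁ * aeval y (PA B₁) ^ s₂ ≠ 0 :=
    mul_ne_zero (pow_ne_zero _ (hx0 _ (PA_ne _))) (pow_ne_zero _ (hy0 _ (PA_ne _)))
  obtain ⟨c, hc⟩ := const_of_forall (K := K)
    (u := aeval x (PA A₁) ^ s₂ * aeval y (PA B₂) ^ s₁ /
      (aeval x (PA A₂) ^ s₁ * aeval y (PA B₁) ^ s₂)) (by
    intro V hV
    by_cases hne : V = ⊤
    · rw [hne]; trivial
    have h1 := balance_all hp hd hp' hd' h hV hne hG₁ hG₂ hA hB hcA hcB
    have h2 : V.valuation (aeval x (PA A₁) ^ s₂ * aeval y (PA B₂) ^ s₁) =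
        V.valuation (aeval x (PA A₂) ^ s₁ * aeval y (PA B₁) ^ s₂) := by
      rw [map_mul V.valuation, map_mul V.valuation, map_pow V.valuation, map_pow V.valuation,
        map_pow V.valuation, map_pow V.valuation]
      exact h1
    rw [← V.valuation_le_one_iff, map_div₀, h2, div_self]
    exact (_root_.map_ne_zero _).2 hden)
  refine ⟨c, h.ker _ ?_⟩
  rw [map_sub, map_mul, map_mul, map_mul, map_pow, map_pow, map_pow, map_pow, ev_C, ev_C,
    ev_map_C, ev_map_C, ev_C, aeval_C, hc, div_mul_cancel₀ _ hden, sub_self]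

end Pool.Agent.R858.FO
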