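import Pool.Agent.R858.FO.Center

/-!
The numbers of points of a good orbit, the function field, two good orbits.
-/

set_option autoImplicit false

open Polynomial

namespace Pool.Agent.R858.FO

universe u

section Count

variable {K : Type u} [Field K]

theorem card_row [IsAlgClosed K] [DecidableEq K] {p : K[X][X]} {A B : Finset K} (hG : Row p A B)
    {a : K} (ha : a ∈ A) : (B.filter fun b => p.evalEval a b = 0).card = p.natDegree := by
  obtain ⟨f, hf⟩ : ∃ f : K[X], f = p.map (evalRingHom a) := ⟨_, rfl⟩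
  have hlc : (evalRingHom a) p.leadingCoeff ≠ 0 := hG.lc a ha
  have hdeg : f.natDegree = p.natDegree := by
    rw [hf]; exact natDegree_map_of_leadingCoeff_ne_zero _ hlc
  have hev : ∀ b, f.eval b = p.evalEval a b := fun b => by rw [hf, map_evalRingHom_eval]
  have hder : ∀ b, (derivative f).eval b = (derivative p).evalEval a b := fun b => by
    rw [hf, derivative_map, map_evalRingHom_eval]
  have hf0 : f ≠ 0 := by
    intro h0
    apply hlc
    have h1 : (p.map (evalRingHom a)).coeff p.natDegree = 0 := by rw [← hf, h0, coeff_zero]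
    rwa [coeff_map] at h1
  have hnd : f.roots.Nodup := by
    rw [Multiset.nodup_iff_count_le_one]
    intro b
    rw [count_roots]
    by_contra hcon
    push Not at hcon
    obtain ⟨h1, h2⟩ := (one_lt_rootMultiplicity_iff_isRoot hf0).1 hcon
    exact hG.der a ha b ((hev b).symm.trans h1) ((hder b).symm.trans h2)
  have hcard : Multiset.card f.roots = f.natDegree := splits_iff_card_roots.1 (IsAlgClosed.splits f)
  have hset : (B.filter fun b => p.evalEval a b = 0) = f.roots.toFinset := by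
    ext b
    rw [Finset.mem_filter, Multiset.mem_toFinset, mem_roots hf0, IsRoot.def, hev]
    exact ⟨fun h => h.2, fun h => ⟨hG.mem a ha b h, h⟩⟩
  rw [hset, Multiset.toFinset_card_of_nodup hnd, hcard, hdeg]

theorem card_balance [IsAlgClosed K] {p : K[X][X]} {A B : Finset K} (hG : Good p A B) :
    A.card * p.natDegree = B.card * (Bivariate.swap p).natDegree := by
  classical
  have h1 : ∑ a ∈ A, ∑ b ∈ B, (if p.evalEval a b = 0 then 1 else 0) = A.card * p.natDegree := by
    rw [Finset.sum_congr rfl fun a ha => by rw [← Finset.card_filter, card_row hG.row ha],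
      Finset.sum_const, smul_eq_mul]
  have h2 : ∑ b ∈ B, ∑ a ∈ A, (if (Bivariate.swap p).evalEval b a = 0 then 1 else 0) =
      B.card * (Bivariate.swap p).natDegree := by
    rw [Finset.sum_congr rfl fun b hb => by rw [← Finset.card_filter, card_row hG.col hb],
      Finset.sum_const, smul_eq_mul]
  rw [← h1, ← h2, Finset.sum_comm]
  simp only [evalEval_swap]

end Count

section Field

variable {K : Type u} [Field K]

theorem ff_of {p : K[X][X]} {A : Type u} [CommRing A] [IsDomain A] [Algebra K A]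
    (φ : K[X][X] →ₐ[K] A) (hs : Function.Surjective φ) (hk : ∀ q, φ q = 0 ↔ p ∣ q) :
    ∃ (L : Type u) (_ : Field L) (_ : Algebra K L) (x y : L), FF p x y := by
  obtain ⟨π, hπ'⟩ : ∃ π : K[X][X] →ₐ[K] FractionRing A,
      ∀ q, π q = algebraMap A (FractionRing A) (φ q) :=
    ⟨(IsScalarTower.toAlgHom K A (FractionRing A)).comp φ, fun q => by simp⟩
  have hev : ∀ q, ev (π (C X)) (π X) q = π q := by
    intro q
    induction q using Polynomial.induction_on' with
    | add q r hq hr => rw [map_add, map_add, hq, hr]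
    | monomial n f =>
      rw [← C_mul_X_pow_eq_monomial, map_mul, map_mul, map_pow, map_pow, ev_C, ev_X]
      congr 1
      induction f using Polynomial.induction_on' with
      | add q r hq hr => rw [map_add, map_add, map_add, hq, hr]
      | monomial m c =>
        rw [← C_mul_X_pow_eq_monomial, map_mul, map_pow, aeval_X, aeval_C, map_mul, map_pow,
          map_mul, map_pow]
        congr 1
        exact (π.commutes c).symm
  refine ⟨FractionRing A, inferInstance, inferInstance, π (C X), π X, ?_, ?_, ?_⟩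
  · intro q hq
    rw [hev, hπ'] at hq
    have h1 := (IsFractionRing.injective A (FractionRing A)) (hq.trans (map_zero _).symm)
    exact (hk q).1 h1
  · rw [hev, hπ', (hk p).2 dvd_rfl, map_zero]
  · intro w
    obtain ⟨⟨a, b⟩, hab⟩ := IsLocalization.surj (nonZeroDivisors A) w
    obtain ⟨q, hq⟩ := hs a
    obtain ⟨r, hr⟩ := hs b.1
    have hb0 : algebraMap A (FractionRing A) b.1 ≠ 0 :=
      IsFractionRing.to_map_ne_zero_of_mem_nonZeroDivisors b.2
    refine ⟨q, r, ?_, ?_⟩
    · rw [hev, hπ', hr]; exact hb0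
    · rw [hev, hev, hπ', hπ', hr, hq, eq_div_iff hb0]
      exact hab

/-- the function field of the curve -/
theorem exists_ff {p : K[X][X]} (hp : Irreducible p) :
    ∃ (L : Type u) (_ : Field L) (_ : Algebra K L) (x y : L), FF p x y := by
  have hdom : IsDomain (AdjoinRoot p) := AdjoinRoot.isDomain_of_prime hp.prime
  refine ff_of ((AdjoinRoot.mkₐ p).restrictScalars K) AdjoinRoot.mk_surjective fun q => ?_
  exact AdjoinRoot.mk_eq_zero

end Field

section Two

variable {K : Type u} [Field K]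

theorem not_dvd_C {p : K[X][X]} (hd : 0 < p.natDegree) {q : K[X]} (hq : q ≠ 0) : ¬ p ∣ C q := by
  intro h
  have h2 := natDegree_le_of_dvd h (by rwa [Ne, C_eq_zero])
  rw [natDegree_C] at h2
  omega

theorem not_dvd_map_C {p : K[X][X]} (hd' : 0 < (Bivariate.swap p).natDegree) {q : K[X]}
    (hq : q ≠ 0) : ¬ p ∣ q.map C := by
  intro h
  have h1 := map_dvd (Bivariate.swap : K[X][X] ≃ₐ[K] K[X][X]) h
  rw [Bivariate.swap_map_C] at h1
  exact not_dvd_C hd' hq h1

/-- **Two good orbits give a separated multiple.** -/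
theorem sep_of_two [IsAlgClosed K] {p : K[X][X]} (hp : Irreducible p) (hd : 0 < p.natDegree)
    (hd' : 0 < (Bivariate.swap p).natDegree) {A₁ A₂ B₁ B₂ : Finset K}
    (hG₁ : Good p A₁ B₁) (hG₂ : Good p A₂ B₂) (hA : Disjoint A₁ A₂) (hB : Disjoint B₁ B₂)
    (hA₁ : A₁.Nonempty) (hA₂ : A₂.Nonempty) :
    ∃ f₁ f₂ g₁ g₂ : K[X], f₂ ≠ 0 ∧ g₂ ≠ 0 ∧ (∀ c : K, f₁ ≠ C c * f₂) ∧
      ¬ p ∣ C f₂ * g₂.map C ∧ p ∣ C f₁ * g₂.map C - C f₂ * g₁.map C := by
  have hp' : Irreducible (Bivariate.swap p) :=
    (MulEquiv.irreducible_iff (Bivariate.swap : K[X][X] ≃ₐ[K] K[X][X])).2 hp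
  obtain ⟨L, _, _, x, y, h⟩ := exists_ff hp
  have b₁ := card_balance hG₁
  have b₂ := card_balance hG₂
  obtain ⟨s₁, hs₁⟩ : ∃ s₁, s₁ = A₁.card * p.natDegree := ⟨_, rfl⟩
  obtain ⟨s₂, hs₂⟩ : ∃ s₂, s₂ = A₂.card * p.natDegree := ⟨_, rfl⟩
  obtain ⟨c, hc⟩ := two_orbits hp hd hp' hd' h hG₁ hG₂ hA hB (s₁ := s₁) (s₂ := s₂)
    (by rw [hs₁, hs₂]; ring) (by rw [hs₁, hs₂, b₁, b₂]; ring)
  have hs₂' : s₂ ≠ 0 := by
    rw [hs₂]
    exact (Nat.mul_pos (Finset.card_pos.2 hA₂) hd).ne'
  refine ⟨PA A₁ ^ s₂, PA A₂ ^ s₁, C c * PA B₁ ^ s₂, PA B₂ ^ s₁, pow_ne_zero _ (PA_ne _),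
    pow_ne_zero _ (PA_ne _), ?_, ?_, ?_⟩
  · intro e he
    obtain ⟨a, ha⟩ := hA₁
    have h1 := congrArg (eval a) he
    have h2 : (PA A₁).eval a = 0 := by
      rw [PA, eval_prod]
      exact Finset.prod_eq_zero ha (by simp)
    have h3 : (PA A₂).eval a ≠ 0 := by
      rw [PA, eval_prod]
      refine Finset.prod_ne_zero_iff.2 fun b hb => ?_
      rw [eval_sub, eval_X, eval_C]
      intro h0
      rw [sub_eq_zero] at h0
      exact Finset.disjoint_left.1 hA ha (h0 ▸ hb)
    rw [eval_pow, h2, zero_pow hs₂', eval_mul, eval_C, eval_pow] at h1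
    have h4 : e = 0 := by
      rcases mul_eq_zero.1 h1.symm with h5 | h5
      · exact h5
      · exact absurd h5 (pow_ne_zero _ h3)
    rw [h4, C_0, zero_mul] at he
    exact pow_ne_zero _ (PA_ne _) he
  · intro hdvd
    rcases hp.prime.dvd_or_dvd hdvd with h1 | h1
    · exact not_dvd_C hd (pow_ne_zero _ (PA_ne _)) h1
    · exact not_dvd_map_C hd' (pow_ne_zero _ (PA_ne _)) h1
  · convert hc using 1
    simp only [C_pow, Polynomial.map_pow, Polynomial.map_mul, map_C]
    ring

end Two

end Pool.Agent.R858.FO
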