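import Mathlib

/-!
Finite orbits on a curve in `P¹ × P¹`, and separated multiples: definitions.

`K[x, y]` is `K[X][X]`: the inner variable is `x`, the outer one is `y`.
-/

set_option autoImplicit false

open Polynomial
open scoped LinearAlgebra.Projectivization

namespace Pool.Agent.R858.FO

universe u

/-- the projective line `P¹(K)` -/
abbrev P1 (K : Type u) [Field K] : Type u := ℙ K (Fin 2 → K)

section Curve

variable {K : Type u} [Field K]

/-- `deg_x p` -/
noncomputable def degX (p : K[X][X]) : ℕ := p.support.sup fun j => (p.coeff j).natDegree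

/-- `deg_y p` -/
noncomputable def degY (p : K[X][X]) : ℕ := p.natDegree

/-- the value at `((x 0 : x 1), (y 0 : y 1))` of the bihomogenization
`x₀ ^ deg_x p * y₀ ^ deg_y p * p (x₁ / x₀, y₁ / y₀)` -/
noncomputable def bihom (p : K[X][X]) (x y : Fin 2 → K) : K :=
  ∑ j ∈ Finset.range (degY p + 1), ∑ i ∈ Finset.range (degX p + 1),
    (p.coeff j).coeff i * (x 0 ^ (degX p - i) * x 1 ^ i) * (y 0 ^ (degY p - j) * y 1 ^ j)

/-- the curve `C` in `P¹ × P¹` -/
def curve (p : K[X][X]) : Set (P1 K × P1 K) := {P | bihom p P.1.rep P.2.rep = 0}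

/-- two points of the curve with the same first or the same second coordinate -/
def Edge (p : K[X][X]) (P Q : P1 K × P1 K) : Prop :=
  P ∈ curve p ∧ Q ∈ curve p ∧ (P.1 = Q.1 ∨ P.2 = Q.2)

/-- the orbit of a point: the points which can be reached by finitely many edges -/
def orbit (p : K[X][X]) (P : P1 K × P1 K) : Set (P1 K × P1 K) :=
  {Q | Relation.ReflTransGen (Edge p) P Q}

/-- the finite orbits of points of the curve -/
def finiteOrbits (p : K[X][X]) : Set (Set (P1 K × P1 K)) :=
  {O | O.Finite ∧ ∃ P ∈ curve p, O = orbit p P}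

end Curve

section Sep

variable (K : Type u) [Field K]

theorem embX_inj : Function.Injective
    ((algebraMap K[X][X] (FractionRing K[X][X])).comp (C : K[X] →+* K[X][X])) :=
  (IsFractionRing.injective K[X][X] (FractionRing K[X][X])).comp C_injective

theorem embY_inj : Function.Injective
    ((algebraMap K[X][X] (FractionRing K[X][X])).comp
      (mapRingHom (C : K →+* K[X]) : K[X] →+* K[X][X])) :=
  (IsFractionRing.injective K[X][X] (FractionRing K[X][X])).comp
    (map_injective _ C_injective)

/-- the inclusion of `K(x)` in `K(x, y)` -/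
noncomputable def embX : RatFunc K →+* FractionRing K[X][X] :=
  IsFractionRing.lift (A := K[X]) (embX_inj K)

/-- the inclusion of `K(y)` in `K(x, y)` -/
noncomputable def embY : RatFunc K →+* FractionRing K[X][X] :=
  IsFractionRing.lift (A := K[X]) (embY_inj K)

variable {K}

/-- `⟨p⟩`: the rational functions whose reduced denominator is not divisible by `p` and whose
reduced numerator is a multiple of `p` -/
def multiples (p : K[X][X]) : Set (FractionRing K[X][X]) :=
  {q | ∃ N D : K[X][X], IsRelPrime N D ∧ D ≠ 0 ∧
    q = algebraMap K[X][X] (FractionRing K[X][X]) N / algebraMap K[X][X] (FractionRing K[X][X]) D ∧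
      p ∣ N ∧ ¬ p ∣ D}

/-- the field of separated multiples `F(p)` -/
def sepMultiples (p : K[X][X]) : Set (RatFunc K × RatFunc K) :=
  {fg | embX K fg.1 - embY K fg.2 ∈ multiples p}

end Sep

end Pool.Agent.R858.FO
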