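import Pool.Agent.R858.FO.Count
import Pool.Agent.R858.FO.Defs

/-!
Only finitely many finite orbits.
-/

set_option autoImplicit false

open Polynomial
open scoped LinearAlgebra.Projectivization

namespace Pool.Agent.R858.FO

universe u

variable {K : Type u} [Field K]

/-! ### Points -/

theorem fpt_ne (a : K) : (![1, a] : Fin 2 → K) ≠ 0 := fun h => one_ne_zero (congrFun h 0)

theorem ipt_ne : (![0, 1] : Fin 2 → K) ≠ 0 := fun h => one_ne_zero (congrFun h 1)

/-- a finite point -/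
noncomputable def fpt (a : K) : P1 K := Projectivization.mk K ![1, a] (fpt_ne a)

/-- the point at infinity -/
noncomputable def ipt : P1 K := Projectivization.mk K ![0, 1] ipt_ne

theorem fpt_inj : Function.Injective (fpt : K → P1 K) := by
  intro a b h
  rw [fpt, fpt, Projectivization.mk_eq_mk_iff'] at h
  obtain ⟨c, hc⟩ := h
  have h0 := congrFun hc 0
  have h1 := congrFun hc 1
  simp at h0 h1
  rw [h0, one_mul] at h1
  exact h1.symm

theorem pt_cases (α : P1 K) : (∃ a : K, α = fpt a) ∨ α = ipt := by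
  induction α using Projectivization.ind with
  | h v hv =>
    by_cases h0 : v 0 = 0
    · right
      rw [ipt, Projectivization.mk_eq_mk_iff']
      refine ⟨v 1, ?_⟩
      funext i
      fin_cases i
      · simp [h0]
      · simp
    · left
      refine ⟨v 1 / v 0, ?_⟩
      rw [fpt, Projectivization.mk_eq_mk_iff']
      refine ⟨v 0, ?_⟩
      funext i
      fin_cases i
      · simp
      · simp [mul_div_cancel₀ _ h0]

theorem bihom_smul (p : K[X][X]) (a b c d : K) :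
    bihom p (c • ![1, a]) (d • ![1, b]) = c ^ degX p * d ^ degY p * p.evalEval a b := by
  have h1 : p.evalEval a b = ∑ j ∈ Finset.range (degY p + 1),
      ∑ i ∈ Finset.range (degX p + 1), (p.coeff j).coeff i * a ^ i * b ^ j := by
    rw [evalEval, eval_eq_sum_range (p := p) (C b), eval_finsetSum]
    refine Finset.sum_congr rfl fun j hj => ?_
    rw [eval_mul, eval_pow, eval_C]
    rw [eval_eq_sum_range' (n := degX p + 1), Finset.sum_mul]
    by_cases hj' : p.coeff j = 0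
    · rw [hj', natDegree_zero]
      exact Nat.succ_pos _
    · refine Nat.lt_succ_of_le ?_
      exact Finset.le_sup (f := fun j => (p.coeff j).natDegree) (mem_support_iff.2 hj')
  rw [h1, bihom, Finset.mul_sum]
  refine Finset.sum_congr rfl fun j hj => ?_
  rw [Finset.mul_sum]
  refine Finset.sum_congr rfl fun i hi => ?_
  have hi' : i ≤ degX p := Nat.lt_succ_iff.1 (Finset.mem_range.1 hi)
  have hj' : j ≤ degY p := Nat.lt_succ_iff.1 (Finset.mem_range.1 hj)
  have e1 : c ^ degX p = c ^ (degX p - i) * c ^ i := by rw [← pow_add, Nat.sub_add_cancel hi']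
  have e2 : d ^ degY p = d ^ (degY p - j) * d ^ j := by rw [← pow_add, Nat.sub_add_cancel hj']
  rw [e1, e2]
  simp only [Pi.smul_apply, smul_eq_mul, Matrix.cons_val_zero, Matrix.cons_val_one, mul_one,
    mul_pow]
  ring

theorem mem_curve (p : K[X][X]) (a b : K) :
    (fpt a, fpt b) ∈ curve p ↔ p.evalEval a b = 0 := by
  obtain ⟨c, hc⟩ := Projectivization.exists_smul_eq_mk_rep K ![1, a] (fpt_ne a)
  obtain ⟨d, hd⟩ := Projectivization.exists_smul_eq_mk_rep K ![1, b] (fpt_ne b)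
  change bihom p (Projectivization.mk K ![1, a] (fpt_ne a)).rep
    (Projectivization.mk K ![1, b] (fpt_ne b)).rep = 0 ↔ _
  rw [← hc, ← hd]
  change bihom p ((c : K) • ![1, a]) ((d : K) • ![1, b]) = 0 ↔ _
  rw [bihom_smul]
  have h1 : (c : K) ^ degX p * (d : K) ^ degY p ≠ 0 :=
    mul_ne_zero (pow_ne_zero _ c.ne_zero) (pow_ne_zero _ d.ne_zero)
  constructor
  · intro h
    exact (mul_eq_zero.1 h).resolve_left h1
  · intro h
    rw [h, mul_zero]

/-! ### Orbits -/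

theorem edge_symm {p : K[X][X]} {P Q : P1 K × P1 K} (h : Edge p P Q) : Edge p Q P :=
  ⟨h.2.1, h.1, h.2.2.imp Eq.symm Eq.symm⟩

theorem rt_symm {p : K[X][X]} {P Q : P1 K × P1 K} (h : Relation.ReflTransGen (Edge p) P Q) :
    Relation.ReflTransGen (Edge p) Q P := by
  induction h with
  | refl => exact Relation.ReflTransGen.refl
  | tail _ h ih => exact Relation.ReflTransGen.head (edge_symm h) ih

theorem orbit_sub {p : K[X][X]} {P : P1 K × P1 K} (hP : P ∈ curve p) : orbit p P ⊆ curve p := by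
  intro Q hQ
  have hQ' : Relation.ReflTransGen (Edge p) P Q := hQ
  induction hQ' with
  | refl => exact hP
  | tail _ h _ => exact h.2.1

theorem orbit_eq {p : K[X][X]} {P P' Q Q' : P1 K × P1 K} (hQ : Q ∈ orbit p P)
    (hQ' : Q' ∈ orbit p P') (h : Edge p Q Q') : orbit p P = orbit p P' := by
  have hPP' : Relation.ReflTransGen (Edge p) P P' :=
    (Relation.ReflTransGen.tail hQ h).trans (rt_symm hQ')
  ext R
  constructor
  · intro hR
    exact (rt_symm hPP').trans hR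
  · intro hR
    exact hPP'.trans hR

/-- all points of the orbit are regular -/
def Reg (p : K[X][X]) (O : Set (P1 K × P1 K)) : Prop :=
  ∀ Q ∈ O, ∃ a b, Q = (fpt a, fpt b) ∧ a ∉ Bad p ∧ b ∉ Bad (Bivariate.swap p)

theorem exists_good {p : K[X][X]} {O : Set (P1 K × P1 K)} (hO : O ∈ finiteOrbits p)
    (hR : Reg p O) : ∃ A B : Finset K, Good p A B ∧ A.Nonempty ∧
      (∀ a ∈ A, ∃ Q ∈ O, Q.1 = fpt a) ∧ (∀ b ∈ B, ∃ Q ∈ O, Q.2 = fpt b) := by
  obtain ⟨hfin, P, hP, rfl⟩ := hO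
  have hfA : {a : K | ∃ Q ∈ orbit p P, Q.1 = fpt a}.Finite := by
    refine Set.Finite.subset ((hfin.image Prod.fst).preimage fpt_inj.injOn) ?_
    rintro a ⟨Q, hQ, ha⟩
    exact ⟨Q, hQ, ha⟩
  have hfB : {b : K | ∃ Q ∈ orbit p P, Q.2 = fpt b}.Finite := by
    refine Set.Finite.subset ((hfin.image Prod.snd).preimage fpt_inj.injOn) ?_
    rintro a ⟨Q, hQ, ha⟩
    exact ⟨Q, hQ, ha⟩
  have hA : ∀ a ∈ hfA.toFinset, ∃ Q ∈ orbit p P, Q.1 = fpt a ∧ a ∉ Bad p := by
    intro a ha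
    rw [Set.Finite.mem_toFinset] at ha
    obtain ⟨Q, hQ, hQa⟩ := ha
    obtain ⟨a', b', rfl, ha', -⟩ := hR Q hQ
    have : a' = a := fpt_inj hQa
    exact ⟨_, hQ, hQa, this ▸ ha'⟩
  have hB : ∀ b ∈ hfB.toFinset, ∃ Q ∈ orbit p P, Q.2 = fpt b ∧ b ∉ Bad (Bivariate.swap p) := by
    intro b hb
    rw [Set.Finite.mem_toFinset] at hb
    obtain ⟨Q, hQ, hQb⟩ := hb
    obtain ⟨a', b', rfl, -, hb'⟩ := hR Q hQ
    have : b' = b := fpt_inj hQb
    exact ⟨_, hQ, hQb, this ▸ hb'⟩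
  refine ⟨hfA.toFinset, hfB.toFinset, ⟨⟨?_, ?_, ?_⟩, ⟨?_, ?_, ?_⟩⟩, ?_, ?_, ?_⟩
  · intro a ha h0
    obtain ⟨-, -, -, hb⟩ := hA a ha
    exact hb (Or.inl h0)
  · intro a ha b hab
    obtain ⟨Q, hQ, hQa, -⟩ := hA a ha
    rw [Set.Finite.mem_toFinset]
    refine ⟨(fpt a, fpt b), ?_, rfl⟩
    exact Relation.ReflTransGen.tail hQ ⟨orbit_sub hP hQ, (mem_curve p a b).2 hab, Or.inl hQa⟩
  · intro a ha b hab h0
    obtain ⟨-, -, -, hb⟩ := hA a ha
    exact hb (Or.inr ⟨b, hab, h0⟩)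
  · intro b hb h0
    obtain ⟨-, -, -, hb'⟩ := hB b hb
    exact hb' (Or.inl h0)
  · intro b hb a hab
    obtain ⟨Q, hQ, hQb, -⟩ := hB b hb
    rw [Set.Finite.mem_toFinset]
    refine ⟨(fpt a, fpt b), ?_, rfl⟩
    rw [evalEval_swap] at hab
    exact Relation.ReflTransGen.tail hQ ⟨orbit_sub hP hQ, (mem_curve p a b).2 hab, Or.inr hQb⟩
  · intro b hb a hab h0
    obtain ⟨-, -, -, hb'⟩ := hB b hb
    exact hb' (Or.inr ⟨a, hab, h0⟩)
  · have hP' : P ∈ orbit p P := Relation.ReflTransGen.refl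
    obtain ⟨a, b, hab, -, -⟩ := hR P hP'
    refine ⟨a, ?_⟩
    rw [Set.Finite.mem_toFinset]
    exact ⟨P, hP', by rw [hab]⟩
  · intro a ha
    obtain ⟨Q, hQ, hQa, -⟩ := hA a ha
    exact ⟨Q, hQ, hQa⟩
  · intro b hb
    obtain ⟨Q, hQ, hQb, -⟩ := hB b hb
    exact ⟨Q, hQ, hQb⟩

/-! ### Separated multiples -/

theorem mem_multiples {p : K[X][X]} (hp : Irreducible p) {N D : K[X][X]} (hN : p ∣ N)
    (hD : ¬ p ∣ D) : algebraMap K[X][X] (FractionRing K[X][X]) N /
      algebraMap K[X][X] (FractionRing K[X][X]) D ∈ multiples p := by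
  have hD0 : D ≠ 0 := by
    rintro rfl
    exact hD (dvd_zero p)
  obtain ⟨D', N', g, hrel, hgD, hgN⟩ := UniqueFactorizationMonoid.exists_reduced_factors D hD0 N
  have hg0 : g ≠ 0 := by
    rintro rfl
    exact hD0 (by rw [← hgD, zero_mul])
  have hD'0 : D' ≠ 0 := by
    rintro rfl
    exact hD0 (by rw [← hgD, mul_zero])
  have hinj := IsFractionRing.injective K[X][X] (FractionRing K[X][X])
  have hg0' : algebraMap K[X][X] (FractionRing K[X][X]) g ≠ 0 := fun h0 =>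
    hg0 (hinj (h0.trans (map_zero _).symm))
  refine ⟨N', D', hrel.symm, hD'0, ?_, ?_, ?_⟩
  · rw [← hgD, ← hgN, map_mul, map_mul, mul_div_mul_left _ _ hg0']
  · rw [← hgN] at hN
    exact (hp.prime.dvd_or_dvd hN).resolve_left fun h => hD (hgD ▸ Dvd.dvd.mul_right h D')
  · intro h
    exact hD (hgD ▸ Dvd.dvd.mul_left h g)

theorem embX_div (f₁ f₂ : K[X]) :
    embX K (algebraMap K[X] (RatFunc K) f₁ / algebraMap K[X] (RatFunc K) f₂) =
      algebraMap K[X][X] (FractionRing K[X][X]) (C f₁) /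
        algebraMap K[X][X] (FractionRing K[X][X]) (C f₂) := by
  rw [map_div₀]
  simp [embX, IsFractionRing.lift_algebraMap]

theorem embY_div (f₁ f₂ : K[X]) :
    embY K (algebraMap K[X] (RatFunc K) f₁ / algebraMap K[X] (RatFunc K) f₂) =
      algebraMap K[X][X] (FractionRing K[X][X]) (f₁.map C) /
        algebraMap K[X][X] (FractionRing K[X][X]) (f₂.map C) := by
  rw [map_div₀]
  simp [embY, IsFractionRing.lift_algebraMap]

/-- **Two regular finite orbits give a nonconstant separated multiple.** -/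
theorem reg_unique [IsAlgClosed K] {p : K[X][X]} (hp : Irreducible p) (hd : 0 < p.natDegree)
    (hd' : 0 < (Bivariate.swap p).natDegree)
    (hF : ∀ fg ∈ sepMultiples p, ∃ c : K, fg = (RatFunc.C c, RatFunc.C c))
    {O₁ O₂ : Set (P1 K × P1 K)} (h₁ : O₁ ∈ finiteOrbits p) (h₂ : O₂ ∈ finiteOrbits p)
    (r₁ : Reg p O₁) (r₂ : Reg p O₂) : O₁ = O₂ := by
  by_contra hne
  obtain ⟨A₁, B₁, hG₁, hA₁, hA₁', hB₁'⟩ := exists_good h₁ r₁
  obtain ⟨A₂, B₂, hG₂, hA₂, hA₂', hB₂'⟩ := exists_good h₂ r₂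
  obtain ⟨-, P, hP, rfl⟩ := h₁
  obtain ⟨-, P', hP', rfl⟩ := h₂
  have hA : Disjoint A₁ A₂ := by
    rw [Finset.disjoint_left]
    intro a ha ha'
    obtain ⟨Q, hQ, hQa⟩ := hA₁' a ha
    obtain ⟨Q', hQ', hQa'⟩ := hA₂' a ha'
    exact hne (orbit_eq hQ hQ' ⟨orbit_sub hP hQ, orbit_sub hP' hQ', Or.inl (hQa.trans hQa'.symm)⟩)
  have hB : Disjoint B₁ B₂ := by
    rw [Finset.disjoint_left]
    intro b hb hb'
    obtain ⟨Q, hQ, hQb⟩ := hB₁' b hb
    obtain ⟨Q', hQ', hQb'⟩ := hB₂' b hb'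
    exact hne (orbit_eq hQ hQ' ⟨orbit_sub hP hQ, orbit_sub hP' hQ', Or.inr (hQb.trans hQb'.symm)⟩)
  obtain ⟨f₁, f₂, g₁, g₂, hf₂, hg₂, hnc, hden, hnum⟩ :=
    sep_of_two hp hd hd' hG₁ hG₂ hA hB hA₁ hA₂
  have hinj := IsFractionRing.injective K[X][X] (FractionRing K[X][X])
  have e1 : algebraMap K[X][X] (FractionRing K[X][X]) (C f₂) ≠ 0 := fun h0 =>
    hf₂ (C_eq_zero.1 (hinj (h0.trans (map_zero _).symm)))
  have e2 : algebraMap K[X][X] (FractionRing K[X][X]) (g₂.map C) ≠ 0 := fun h0 =>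
    hg₂ ((Polynomial.map_eq_zero_iff C_injective).1 (hinj (h0.trans (map_zero _).symm)))
  have hmem : (algebraMap K[X] (RatFunc K) f₁ / algebraMap K[X] (RatFunc K) f₂,
      algebraMap K[X] (RatFunc K) g₁ / algebraMap K[X] (RatFunc K) g₂) ∈ sepMultiples p := by
    change embX K _ - embY K _ ∈ multiples p
    rw [embX_div, embY_div]
    have h1 := mem_multiples hp hnum hden
    convert h1 using 1
    rw [map_sub, map_mul, map_mul, map_mul]
    field_simp
  obtain ⟨c, hc⟩ := hF _ hmem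
  have hc1 := congrArg Prod.fst hc
  change algebraMap K[X] (RatFunc K) f₁ / algebraMap K[X] (RatFunc K) f₂ = RatFunc.C c at hc1
  have hf₂' : algebraMap K[X] (RatFunc K) f₂ ≠ 0 := fun h0 =>
    hf₂ (RatFunc.algebraMap_injective K (h0.trans (map_zero _).symm))
  rw [div_eq_iff hf₂', ← RatFunc.algebraMap_C, ← map_mul] at hc1
  exact hnc c (RatFunc.algebraMap_injective K hc1)

/-- **If the field of separated multiples is trivial then the curve has only finitely many finite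
orbits.** -/
theorem main [IsAlgClosed K] [CharZero K] {p : K[X][X]} (hp : Irreducible p)
    (hx : ∀ q : K[X], p ≠ C q) (hy : ∀ q : K[X], p ≠ q.map C)
    (hF : ∀ fg ∈ sepMultiples p, ∃ c : K, fg = (RatFunc.C c, RatFunc.C c)) :
    (finiteOrbits p).Finite := by
  have hd : 0 < p.natDegree := by
    rw [Nat.pos_iff_ne_zero]
    intro h0
    obtain ⟨q, hq⟩ := natDegree_eq_zero.1 h0
    exact hx q hq.symm
  have hd' : 0 < (Bivariate.swap p).natDegree := by
    rw [Nat.pos_iff_ne_zero]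
    intro h0
    obtain ⟨q, hq⟩ := natDegree_eq_zero.1 h0
    refine hy q ?_
    rw [← Bivariate.swap_C, hq, Bivariate.swap_swap_apply]
  have hp' : Irreducible (Bivariate.swap p) :=
    (MulEquiv.irreducible_iff (Bivariate.swap : K[X][X] ≃ₐ[K] K[X][X])).2 hp
  have hBX : (insert (ipt : P1 K) (fpt '' Bad p)).Finite :=
    ((bad_finite hp hd).image _).insert _
  have hBY : (insert (ipt : P1 K) (fpt '' Bad (Bivariate.swap p))).Finite :=
    ((bad_finite hp' hd').image _).insert _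
  have h1 : {O | O ∈ finiteOrbits p ∧ Reg p O}.Finite := by
    refine Set.Subsingleton.finite ?_
    rintro O₁ ⟨h₁, r₁⟩ O₂ ⟨h₂, r₂⟩
    exact reg_unique hp hd hd' hF h₁ h₂ r₁ r₂
  have h2 : (⋃ α ∈ insert (ipt : P1 K) (fpt '' Bad p),
      {O | O ∈ finiteOrbits p ∧ ∃ Q ∈ O, Q.1 = α}).Finite := by
    refine hBX.biUnion fun α _ => Set.Subsingleton.finite ?_
    rintro O₁ ⟨⟨-, P, hP, rfl⟩, Q, hQ, hQa⟩ O₂ ⟨⟨-, P', hP', rfl⟩, Q', hQ', hQa'⟩
    exact orbit_eq hQ hQ' ⟨orbit_sub hP hQ, orbit_sub hP' hQ', Or.inl (hQa.trans hQa'.symm)⟩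
  have h3 : (⋃ α ∈ insert (ipt : P1 K) (fpt '' Bad (Bivariate.swap p)),
      {O | O ∈ finiteOrbits p ∧ ∃ Q ∈ O, Q.2 = α}).Finite := by
    refine hBY.biUnion fun α _ => Set.Subsingleton.finite ?_
    rintro O₁ ⟨⟨-, P, hP, rfl⟩, Q, hQ, hQa⟩ O₂ ⟨⟨-, P', hP', rfl⟩, Q', hQ', hQa'⟩
    exact orbit_eq hQ hQ' ⟨orbit_sub hP hQ, orbit_sub hP' hQ', Or.inr (hQa.trans hQa'.symm)⟩
  refine (h1.union (h2.union h3)).subset fun O hO => ?_
  by_cases hR : Reg p O
  · exact Or.inl ⟨hO, hR⟩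
  right
  unfold Reg at hR
  push Not at hR
  obtain ⟨Q, hQ, hQR⟩ := hR
  rcases pt_cases Q.1 with ⟨a, ha⟩ | ha
  · rcases pt_cases Q.2 with ⟨b, hb⟩ | hb
    · by_cases haB : a ∈ Bad p
      · left
        refine Set.mem_biUnion (Set.mem_insert_of_mem _ ⟨a, haB, rfl⟩) ⟨hO, Q, hQ, ha⟩
      · right
        have hbB := hQR a b (Prod.ext ha hb) haB
        exact Set.mem_biUnion (Set.mem_insert_of_mem _ ⟨b, hbB, rfl⟩) ⟨hO, Q, hQ, hb⟩
    · right
      exact Set.mem_biUnion (Set.mem_insert _ _) ⟨hO, Q, hQ, hb⟩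
  · left
    exact Set.mem_biUnion (Set.mem_insert _ _) ⟨hO, Q, hQ, ha⟩

end Pool.Agent.R858.FO
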