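import Mathlib

/-!
Bivariate polynomials and valuation rings of the function field of a plane curve.
-/

set_option autoImplicit false

open Polynomial

namespace Pool.Agent.R858.FO

universe u

section Bez

variable {K : Type u} [Field K]

/-- a Bezout relation with a nonzero polynomial in the inner variable -/
theorem bezout {p q : K[X][X]} (hp : Irreducible p) (hd : 0 < p.natDegree) (hq : ¬ p ∣ q) :
    ∃ (u v : K[X][X]) (d : K[X]), d ≠ 0 ∧ u * p + v * q = C d := by
  have hprim : p.IsPrimitive := hp.isPrimitive hd.ne'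
  have hpi : Irreducible (p.map (algebraMap K[X] (FractionRing K[X]))) :=
    (hprim.irreducible_iff_irreducible_map_fraction_map).1 hp
  have hnd : ¬ p.map (algebraMap K[X] (FractionRing K[X])) ∣
      q.map (algebraMap K[X] (FractionRing K[X])) :=
    fun h => hq (hprim.dvd_of_fraction_map_dvd_fraction_map h)
  obtain ⟨a, b, hab⟩ := (hpi.coprime_iff_not_dvd).2 hnd
  obtain ⟨c, hc0, hc⟩ := IsLocalization.integerNormalization_spec (nonZeroDivisors K[X]) a
  obtain ⟨d, hd0, hd'⟩ := IsLocalization.integerNormalization_spec (nonZeroDivisors K[X]) b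
  rw [mem_nonZeroDivisors_iff_ne_zero] at hc0 hd0
  refine ⟨C d * IsLocalization.integerNormalization (nonZeroDivisors K[X]) a,
    C c * IsLocalization.integerNormalization (nonZeroDivisors K[X]) b, c * d,
    mul_ne_zero hc0 hd0, ?_⟩
  apply map_injective (algebraMap K[X] (FractionRing K[X])) (IsFractionRing.injective _ _)
  rw [Algebra.smul_def, Polynomial.algebraMap_apply] at hc hd'
  simp only [Polynomial.map_add, Polynomial.map_mul, map_C, hc, hd', map_mul]
  linear_combination (C ((algebraMap K[X] (FractionRing K[X])) c) *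
    C ((algebraMap K[X] (FractionRing K[X])) d)) * hab

/-- the values where the polynomial in the outer variable degenerates -/
def Bad (p : K[X][X]) : Set K :=
  {a : K | p.leadingCoeff.eval a = 0 ∨
    ∃ b, p.evalEval a b = 0 ∧ (derivative p).evalEval a b = 0}

theorem bad_finite [CharZero K] {p : K[X][X]} (hp : Irreducible p) (hd : 0 < p.natDegree) :
    (Bad p).Finite := by
  have hder : ¬ p ∣ derivative p := by
    intro h
    have h0 : derivative p ≠ 0 := by
      intro h0
      have := derivative_eq_zero.1 h0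
      omega
    have h1 := natDegree_le_of_dvd h h0
    have h2 := natDegree_derivative_lt (p := p) hd.ne'
    omega
  obtain ⟨u, v, d, hd0, h⟩ := bezout hp hd hder
  have hne : p.leadingCoeff * d ≠ 0 := mul_ne_zero (leadingCoeff_ne_zero.2 hp.ne_zero) hd0
  refine (Polynomial.finite_setOfPred_isRoot hne).subset ?_
  rintro a (ha | ⟨b, hb, hb'⟩)
  · simp [IsRoot, ha]
  · have h1 := congrArg (fun q => q.evalEval a b) h
    simp only [evalEval_add, evalEval_mul, hb, hb', mul_zero, add_zero, evalEval_C] at h1
    simp [IsRoot, ← h1]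

end Bez

section Val

variable {K : Type u} [Field K] {L : Type u} [Field L] [Algebra K L]

/-- evaluation of a bivariate polynomial: the inner variable at `x`, the outer one at `y` -/
noncomputable def ev (x y : L) : K[X][X] →+* L := eval₂RingHom (aeval x : K[X] →ₐ[K] L).toRingHom y

theorem ev_C (x y : L) (q : K[X]) : ev x y (C q) = aeval x q := by
  simp [ev]

theorem ev_X (x y : L) : ev (K := K) x y X = y := by simp [ev]

theorem ev_map_C (x y : L) (q : K[X]) : ev x y (q.map C) = aeval y q := by
  simp only [ev, coe_eval₂RingHom, eval₂_map]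
  have : ((aeval x : K[X] →ₐ[K] L).toRingHom.comp C) = algebraMap K L := by
    ext c; simp
  rw [this]
  rfl

theorem ev_sum (x y : L) (q : K[X][X]) :
    ev x y q = ∑ i ∈ Finset.range (q.natDegree + 1), aeval x (q.coeff i) * y ^ i := by
  simp [ev, eval₂_eq_sum_range]

variable {V : ValuationSubring L}

/-- the valuation ring contains the constants -/
def Cst (K : Type u) [Field K] {L : Type u} [Field L] [Algebra K L] (V : ValuationSubring L) :
    Prop := ∀ c : K, algebraMap K L c ∈ V

theorem v_cst_le (hV : Cst K V) (c : K) : V.valuation (algebraMap K L c) ≤ 1 :=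
  (V.valuation_le_one_iff _).2 (hV c)

theorem v_cst (hV : Cst K V) {c : K} (hc : c ≠ 0) : V.valuation (algebraMap K L c) = 1 := by
  refine le_antisymm (v_cst_le hV c) ?_
  have h1 := v_cst_le hV c⁻¹
  have h2 : V.valuation (algebraMap K L c) * V.valuation (algebraMap K L c⁻¹) = 1 := by
    rw [← map_mul, ← map_mul, mul_inv_cancel₀ hc, map_one, map_one]
  rw [← h2]
  exact mul_le_of_le_one_right' h1

theorem v_aeval_le (hV : Cst K V) {z : L} (hz : V.valuation z ≤ 1) (q : K[X]) :
    V.valuation (aeval z q) ≤ 1 := by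
  induction q using Polynomial.induction_on' with
  | add p q hp hq =>
    rw [map_add]
    exact (V.valuation.map_add _ _).trans (max_le hp hq)
  | monomial n a =>
    rw [aeval_monomial, map_mul, map_pow]
    exact mul_le_one' (v_cst_le hV a) (pow_le_one' hz n)

theorem v_ev_le (hV : Cst K V) {x y : L} (hx : V.valuation x ≤ 1) (hy : V.valuation y ≤ 1)
    (q : K[X][X]) : V.valuation (ev x y q) ≤ 1 := by
  rw [ev_sum]
  refine V.valuation.map_sum_le fun i _ => ?_
  rw [map_mul, map_pow]
  exact mul_le_one' (v_aeval_le hV hx _) (pow_le_one' hy i)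

theorem v_le_of_near (hV : Cst K V) {z : L} {a : K} (h : V.valuation (z - algebraMap K L a) < 1) :
    V.valuation z ≤ 1 := by
  have h1 : z = (z - algebraMap K L a) + algebraMap K L a := by ring
  rw [h1]
  exact (V.valuation.map_add _ _).trans (max_le h.le (v_cst_le hV a))

theorem near_unique (hV : Cst K V) {z : L} {a b : K}
    (h : V.valuation (z - algebraMap K L a) < 1) (hab : a ≠ b) :
    V.valuation (z - algebraMap K L b) = 1 := by
  have h1 : z - algebraMap K L b = (z - algebraMap K L a) + algebraMap K L (a - b) := by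
    rw [map_sub]; ring
  rw [h1, V.valuation.map_add_eq_of_lt_right]
  · exact v_cst hV (sub_ne_zero.2 hab)
  · rw [v_cst hV (sub_ne_zero.2 hab)]
    exact h

theorem cong1 (hV : Cst K V) {z : L} {a : K} (h : V.valuation (z - algebraMap K L a) < 1)
    (q : K[X]) : V.valuation (aeval z q - algebraMap K L (q.eval a)) < 1 := by
  obtain ⟨r, hr⟩ := X_sub_C_dvd_sub_C_eval (a := a) (p := q)
  have h1 := congrArg (aeval z) hr
  rw [map_sub, map_mul, map_sub, aeval_X, aeval_C, aeval_C] at h1
  rw [h1, map_mul]
  exact mul_lt_one_of_lt_of_le h (v_aeval_le hV (v_le_of_near hV h) r)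

theorem cong2 (hV : Cst K V) {x y : L} {a b : K} (hx : V.valuation (x - algebraMap K L a) < 1)
    (hy : V.valuation (y - algebraMap K L b) < 1) (q : K[X][X]) :
    V.valuation (ev x y q - algebraMap K L (q.evalEval a b)) < 1 := by
  obtain ⟨r, hr⟩ := X_sub_C_dvd_sub_C_eval (a := C b) (p := q)
  have h1 := congrArg (ev x y) hr
  rw [map_sub, map_mul, map_sub, ev_X, ev_C, ev_C, aeval_C] at h1
  have h2 : ev x y q - algebraMap K L (q.evalEval a b) =
      (aeval x (q.eval (C b)) - algebraMap K L ((q.eval (C b)).eval a)) +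
        (y - algebraMap K L b) * ev x y r := by
    rw [← h1]; ring
  rw [h2]
  refine V.valuation.map_add_lt (cong1 hV hx _) ?_
  rw [map_mul]
  exact mul_lt_one_of_lt_of_le hy (v_ev_le hV (v_le_of_near hV hx) (v_le_of_near hV hy) r)

theorem v_unit_of_cong (hV : Cst K V) {z : L} {c : K} (hc : c ≠ 0)
    (h : V.valuation (z - algebraMap K L c) < 1) : V.valuation z = 1 := by
  have h1 := near_unique hV h hc
  rwa [map_zero, sub_zero] at h1

theorem cst_eq_zero (hV : Cst K V) {c : K} (h : V.valuation (algebraMap K L c) < 1) : c = 0 := by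
  by_contra hc
  rw [v_cst hV hc] at h
  exact lt_irrefl _ h

/-- a root of a polynomial with coefficients in the valuation ring whose leading coefficient is a
unit is in the valuation ring -/
theorem root_le (hV : Cst K V) {x y : L} {p : K[X][X]} (hx : V.valuation x ≤ 1)
    (hlc : V.valuation (aeval x p.leadingCoeff) = 1) (hp : ev x y p = 0) :
    V.valuation y ≤ 1 := by
  by_contra hy
  push Not at hy
  rw [ev_sum, Finset.sum_range_succ] at hp
  have h1 : V.valuation (∑ i ∈ Finset.range p.natDegree, aeval x (p.coeff i) * y ^ i) <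
      V.valuation y ^ p.natDegree := by
    refine V.valuation.map_sum_lt (pow_ne_zero _ (zero_lt_one.trans hy).ne') fun i hi => ?_
    rw [map_mul, map_pow]
    calc V.valuation (aeval x (p.coeff i)) * V.valuation y ^ i ≤ 1 * V.valuation y ^ i :=
          mul_le_mul_left (v_aeval_le hV hx _) _
      _ = V.valuation y ^ i := one_mul _
      _ < V.valuation y ^ p.natDegree := pow_lt_pow_right₀ hy (Finset.mem_range.1 hi)
  have h2 : V.valuation (aeval x (p.coeff p.natDegree) * y ^ p.natDegree) =
      V.valuation y ^ p.natDegree := by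
    rw [map_mul, map_pow]
    change V.valuation (aeval x p.leadingCoeff) * _ = _
    rw [hlc, one_mul]
  have h3 : aeval x (p.coeff p.natDegree) * y ^ p.natDegree =
      -∑ i ∈ Finset.range p.natDegree, aeval x (p.coeff i) * y ^ i := by
    linear_combination hp
  rw [h3, Valuation.map_neg] at h2
  exact absurd h2 h1.ne

/-! ### Products -/

/-- the polynomial with the given simple roots -/
noncomputable def PA (A : Finset K) : K[X] := ∏ a ∈ A, (X - C a)

theorem aeval_PA (z : L) (A : Finset K) : aeval z (PA A) = ∏ a ∈ A, (z - algebraMap K L a) := by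
  simp [PA, map_prod]

theorem PA_ne (A : Finset K) : PA A ≠ 0 :=
  Finset.prod_ne_zero_iff.2 fun a _ => X_sub_C_ne_zero a

theorem v_PA_large (hV : Cst K V) {z : L} (hz : 1 < V.valuation z) (A : Finset K) :
    V.valuation (aeval z (PA A)) = V.valuation z ^ A.card := by
  rw [aeval_PA, map_prod, Finset.prod_congr rfl (g := fun _ => V.valuation z), Finset.prod_const]
  intro a _
  exact V.valuation.map_sub_eq_of_lt_left ((v_cst_le hV a).trans_lt hz)

theorem v_PA_far (hV : Cst K V) {z : L} (hz : V.valuation z ≤ 1) {A : Finset K}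
    (h : ∀ a ∈ A, ¬ V.valuation (z - algebraMap K L a) < 1) :
    V.valuation (aeval z (PA A)) = 1 := by
  rw [aeval_PA, map_prod]
  refine Finset.prod_eq_one fun a ha => le_antisymm ?_ (not_lt.1 (h a ha))
  exact (V.valuation.map_sub _ _).trans (max_le hz (v_cst_le hV a))

theorem v_PA_near (hV : Cst K V) {z : L} {a : K} (h : V.valuation (z - algebraMap K L a) < 1)
    {A : Finset K} (ha : a ∈ A) :
    V.valuation (aeval z (PA A)) = V.valuation (z - algebraMap K L a) := by
  classical
  rw [aeval_PA, map_prod, ← Finset.mul_prod_erase A _ ha, Finset.prod_eq_one, mul_one]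
  intro b hb
  exact near_unique hV h (Finset.ne_of_mem_erase hb).symm

theorem v_PA_away (hV : Cst K V) {z : L} {a : K} (h : V.valuation (z - algebraMap K L a) < 1)
    {A : Finset K} (ha : a ∉ A) : V.valuation (aeval z (PA A)) = 1 := by
  refine v_PA_far hV (v_le_of_near hV h) fun b hb => ?_
  rw [near_unique hV h fun hab => ha (hab ▸ hb)]
  exact lt_irrefl _

/-- the balance away from the roots -/
theorem balance (hV : Cst K V) {z : L} {A₁ A₂ : Finset K} {s₁ s₂ : ℕ}
    (h1 : ∀ a ∈ A₁, ¬ V.valuation (z - algebraMap K L a) < 1)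
    (h2 : ∀ a ∈ A₂, ¬ V.valuation (z - algebraMap K L a) < 1)
    (hc : A₁.card * s₂ = A₂.card * s₁) :
    V.valuation (aeval z (PA A₁)) ^ s₂ = V.valuation (aeval z (PA A₂)) ^ s₁ := by
  rcases lt_or_ge 1 (V.valuation z) with hz | hz
  · rw [v_PA_large hV hz, v_PA_large hV hz, ← pow_mul, ← pow_mul, hc]
  · rw [v_PA_far hV hz h1, v_PA_far hV hz h2, one_pow, one_pow]

end Val

end Pool.Agent.R858.FO
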